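import Pool.Agent.W850.HT.AllN

/-!
# Hunt's hypothesis (H) is not preserved by sums of independent Lévy processes

Already on the line: let `N⁺ m`, `N⁻ m` be independent Poisson processes with rates `r⁺ m`, `r⁻ m`,
let `e n` be an integer multiple of `e (n + 1)`, and let
`X t = - t + ∑ m, e (m + 1) * (N⁺ m t - r⁺ m * t)`,
`Y t = 2 * t - ∑ m, e (m + 1) * (N⁻ m t - r⁻ m * t)`, where `e (m + 1) * r⁻ m = 6 * 4 ^ m`. Both
processes have unbounded variation and jumps of one sign only; they take positive and negative
values, and hence the value `0`, at arbitrarily small times. So every point is regular for itself,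
thin sets are empty, and (H) holds for `X` and for `Y`. For the sum `X + Y` the drifts nearly
cancel: modulo `e n` it moves with nearly constant speed `v n`, where
`v n - v (n + 1) = e (n + 1) * (r⁺ n - r⁻ n)`, and `v n` tends to `0` rapidly. The closed set `A` of
all `x` such that, for every `n`, `x` mod `e n` lies in a suitable window is thin but not polar for
`X + Y`. In dimension `n` one puts these processes on an axis.
-/

set_option autoImplicit false

open MeasureTheory ProbabilityTheory Set Filter Topology
open scoped NNReal ENNReal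

namespace Pool.Agent.Results.MP_9a0bf1_pr.SumWithoutHEveryDimension

open Pool.Agent.W850.HT

/-- In every dimension `n ≥ 1` there are independent Lévy processes `X` and `Y`, both satisfying
Hunt's hypothesis (H), such that some closed set is thin but not polar for `X + Y`; in particular
`X + Y` does not satisfy (H). -/
theorem result : ∀ n : ℕ, 0 < n → ∃ (Ω : Type) (_ : MeasurableSpace Ω) (P : Measure Ω)
    (X Y : ℝ≥0 → Ω → (Fin n → ℝ)), IsProbabilityMeasure P ∧ IsLevyProcess P X ∧
    IsLevyProcess P Y ∧ IndepFun (fun ω t => X t ω) (fun ω t => Y t ω) P ∧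
    HypothesisH P X ∧ HypothesisH P Y ∧
    (∃ A : Set (Fin n → ℝ), IsClosed A ∧ Thin P (fun t ω => X t ω + Y t ω) A ∧
      ¬ Polar P (fun t ω => X t ω + Y t ω) A) ∧
    ¬ HypothesisH P (fun t ω => X t ω + Y t ω) := by
  intro n hn
  let i : Fin n := ⟨0, hn⟩
  exact ⟨Om × Om, inferInstance, One.PQ, AllN.X i, AllN.Y i, inferInstance, AllN.levy_X i,
    AllN.levy_Y i, AllN.indep_XY i, AllN.H_X i, AllN.H_Y i,
    ⟨AllN.A i, AllN.isClosed_A i, AllN.thin_A i, AllN.not_polar_A i⟩, AllN.not_H i⟩

end Pool.Agent.Results.MP_9a0bf1_pr.SumWithoutHEveryDimension
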